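import Mathlib

open Finset

namespace Pool.Agent.Results.MP_fc29f1_nt.Seven

/-- The binomial coefficient of a rational `a`. -/
def bin (a : ℚ) (k : ℕ) : ℚ := (∏ i ∈ range k, (a - i)) / k.factorial

/-- The sum `S_2`. -/
def S (p : ℕ) : ℚ := ∑ k ∈ range p, bin (-1 / 2) k * bin (-1 / 3) k / (-27) ^ k

/-- `x - y` lies in `p ^ 2 ℤ_(p)`. -/
def Cong (p : ℕ) (x y : ℚ) : Prop := ¬ p ∣ ((x - y) / p ^ 2).den

theorem result : ¬ ∀ p : ℕ, p.Prime → 5 < p → p % 3 = 1 → ∀ A B : ℤ, (p : ℤ) = A ^ 2 + 3 * B ^ 2 →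
    3 ∣ A - 1 → Cong p (S p) (2 * A - p / (2 * A)) := fun h =>
  h 7 (by norm_num) (by norm_num) rfl (-2) 1 (by norm_num) (by norm_num) (by decide +kernel)

end Pool.Agent.Results.MP_fc29f1_nt.Seven
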